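import Pool.Agent.KT3.StmtsC
import Pool.Agent.Helper13_NBT.Main

/-!
# KT3 squad (MP_e54c4c_gt), row FIN: a top simplex fixed by an element with distinct eigenvalues
-/

set_option autoImplicit false

open Matrix Filter Topology

namespace Pool.Agent.KT3.H76

open Pool.Agent.PFS Pool.Agent.PFJ Pool.Agent.NBT Pool.Agent.KT3

/-- **Row FIN.** -/
theorem fin : FinStmt := by
  classical
  intro n C Γ k hHK w hw g hg l hl hgw
  have hCC : CC C Γ := hHK.toCC
  have h3 : 3 ≤ k + 1 := hHK.three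
  have hmax : MaxCard C Γ (k + 1) := hHK.maxc
  let α : Fin 1 → GL (Fin n) ℝ := fun _ => g
  let lam : Fin 1 → Fin (k + 1) → ℝ := fun _ => l
  have hα : ∀ j, α j ∈ Γ := fun _ => hg
  have hFAM := Pool.Agent.NBT.H13.Main.fFMS n C Γ (k + 1) hCC 1 α lam hα
  have hw0 : FxF C Γ α lam w := ⟨hw, fun _ i => hgw i⟩
  obtain ⟨T, c, hTB, hM, hTF, hexT, -⟩ := Pool.Agent.NBT.H13.Main.fTBE n C Γ _ (k + 1) hCC h3 hmax _
    hFAM w (fun _ => 0) hw0
    (fun I => ⟨Pool.Agent.NBT.H67.comb w I, Pool.Agent.NBT.H67.comb_ib hCC hw0.1 I, Nat.zero_le _⟩)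
  have hno : ∀ i r : Fin (k + 1), ¬ Arr C T i r := by
    intro i r hA
    have h1 := Pool.Agent.NBT.H13.Main.fCLS n C Γ (k + 1) 1 α lam T c hα hTB hTF i r hA 0
    have h2 : i = r := hl h1
    obtain ⟨w', x, -, -, hS⟩ := hA
    exact hS.1 h2.symm
  have hRig : ∀ S : Finset (Fin (k + 1)), Rig C T S := by
    intro S
    by_contra hS
    obtain ⟨i, -, r, -, hA⟩ := Pool.Agent.NBT.H13.Main.fRGA n C Γ _ (k + 1) T c hTB hM hexT S hS
    exact hno i r hA
  choose e hepos he using hRig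
  obtain ⟨S0, -, hS0⟩ := Finset.exists_min_image (Finset.univ : Finset (Finset (Fin (k + 1)))) e
    ⟨∅, Finset.mem_univ _⟩
  have hinj : ∀ i j : Fin (k + 1), i ≠ j → ((i : ℕ) : ℝ) ≠ ((j : ℕ) : ℝ) := by
    intro i j hij h
    exact hij (Fin.ext (by exact_mod_cast h))
  have hPot : Pot C T c (fun i : Fin (k + 1) => ((i : ℕ) : ℝ)) (e S0) := by
    refine ⟨hepos S0, ?_, ?_, ?_⟩
    · intro s x z hx hz hN
      refine he _ x z hx hz ?_
      refine (Pool.Agent.NBT.H13.Main.fNRF n C Γ (k + 1) hCC).1 _ _ x z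
        (hS0 _ (Finset.mem_univ _)) ?_ hN
      have h4 := (hTB.pes x hx).1.pos (fun _ => 1) (fun _ => one_pos)
      simp only [one_smul] at h4
      exact subset_closure h4
    · intro i r hir h
      exact absurd h (hinj i r hir)
    · intro i r m h1 h2
      left
      by_contra h3
      exact hinj i r h3 h1
  obtain ⟨x, hx⟩ := hexT
  exact ⟨x, hTB.pes x hx, Pool.Agent.NBT.H13.Main.fPZB n C Γ _ k T c hTB _ hinj x hx
    (Pool.Agent.NBT.H13.Main.fCOC n C Γ _ (k + 1) T c hTB _ _ hPot x hx)⟩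

end Pool.Agent.KT3.H76
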