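import Pool.Agent.KT3.StmtsA
import Pool.Agent.Helper13_NBT.IBF

/-!
# KT3 squad (MP_e54c4c_gt), row LFT: the threshold in the leaf
-/

set_option autoImplicit false

open Matrix Filter Topology

namespace Pool.Agent.KT3.H76

open Pool.Agent.PFS Pool.Agent.PFJ Pool.Agent.NBT Pool.Agent.KT3

variable {n : ℕ}

/-- a scaled unit is a unit -/
theorem unt_of_smul {C : Set (V n)} (hP : PCone C) {L : Submodule ℝ (V n)} {y : V n} {c : ℝ}
    (hc : 0 < c) (h : Unt C L (c • y)) : Unt C L y := by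
  have hy : y = c⁻¹ • (c • y) := by rw [smul_smul, inv_mul_cancel₀ hc.ne', one_smul]
  refine ⟨?_, ?_, ?_⟩
  · rw [hy]; exact L.smul_mem _ h.1
  · rw [hy]; exact hP.cl_smul h.2.1 (inv_pos.2 hc).le
  · intro z hz
    obtain ⟨M, hM, h1⟩ := h.2.2 z hz
    refine ⟨M * c, by positivity, ?_⟩
    rw [← smul_smul]; exact h1

/-- a closed cone contains no line: a bound from below -/
theorem bdd_of_cone {C : Set (V n)} (hP : PCone C) {f : V n} (hf : f ∈ C) {u v : V n}
    (hv : v ∈ closure C) (hv0 : v ≠ 0) : BddBelow {t : ℝ | u + t • v ∈ closure C} := by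
  by_contra hcon
  rw [not_bddBelow_iff] at hcon
  obtain ⟨M, hM, hMu⟩ := hP.absorb hf u
  have hfc : f ∈ closure C := subset_closure hf
  have h1 : -v ∈ closure C := by
    refine cl_of_eps (f := f) fun ε hε => ?_
    obtain ⟨t, ht, htlt⟩ := hcon (-(M / ε))
    have hMe : 0 < M / ε := by positivity
    have ht0 : 0 < -t := by linarith
    have h2 : u + t • v ∈ closure C := ht
    have h3 : M / (-t) ≤ ε := by
      rw [div_le_iff₀ ht0]
      have h4 : M / ε < -t := by linarith
      rw [div_lt_iff₀ hε] at h4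
      linarith
    have h5 : -v + (-t)⁻¹ • u ∈ closure C := by
      have h6 := hP.cl_smul h2 (inv_pos.2 ht0).le
      rw [smul_add, smul_smul] at h6
      have htne : t ≠ 0 := by
        intro h0
        rw [h0, neg_zero] at ht0
        exact lt_irrefl _ ht0
      have h7 : (-t)⁻¹ * t = -1 := by
        rw [inv_neg, neg_mul, inv_mul_cancel₀ htne]
      rw [h7, neg_smul, one_smul] at h6
      rw [add_comm]; exact h6
    have h8 : (-t)⁻¹ • (M • f - u) ∈ closure C := hP.cl_smul (subset_closure hMu) (inv_pos.2 ht0).le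
    have h9 : (ε - M / (-t)) • f ∈ closure C := hP.cl_smul hfc (by linarith)
    have h10 := hP.cl_add (hP.cl_add h5 h8) h9
    have e : -v + (-t)⁻¹ • u + (-t)⁻¹ • (M • f - u) + (ε - M / (-t)) • f = -v + ε • f := by
      rw [smul_sub, smul_smul, sub_smul, div_eq_inv_mul]
      abel
    rwa [e] at h10
  exact hv0 (hP.salient v hv h1)

/-- **LFT** -/
theorem lft (hlfs : LfsStmt) (hstx : StxStmt) : LftStmt := by
  intro n C Γ d h w hW φ hφ u hu hφu
  have hHK : HK C Γ 3 := h.toHI.toHK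
  have hP : PCone C := hHK.toCC.toPCone
  have hpes : PES C w := hW.pes.1
  have hcl : ∀ m, w m ∈ closure C := fun m => hpes.cl m
  have hf : ∑ i, w i ∈ C := hpes.sum_mem
  have hw0F : w 0 ∈ BI C w I01 := hW.box.mem 0 (by simp)
  have hw1F : w 1 ∈ BI C w I01 := hW.box.mem 1 (by simp)
  have hφ1 : φ (w 1) = 0 := hφ.zero 1 (by decide)
  obtain ⟨hst1, -, -, hnu1⟩ := hstx n C Γ 3 hHK w hW.pes 0 1 (by decide) _ hW.box
  have hw1ne : w 1 ≠ 0 := by
    intro h0
    refine hpes.bd (fun i => if i = 1 then 0 else 1) (fun i => by split_ifs <;> norm_num)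
      ⟨1, by simp⟩ ?_
    have e : ∑ i, (if i = 1 then (0 : ℝ) else 1) • w i = ∑ i, w i := by
      refine Finset.sum_congr rfl fun i _ => ?_
      by_cases hi : i = 1
      · rw [hi, h0, smul_zero]
      · rw [if_neg hi, one_smul]
    rw [e]; exact hf
  -- the set of all `t`
  obtain ⟨S, hS⟩ : ∃ S : Set ℝ, S = {t : ℝ | u + t • w 1 ∈ closure C} := ⟨_, rfl⟩
  have hmemS : ∀ t, t ∈ S ↔ u + t • w 1 ∈ closure C := by
    intro t
    rw [hS]; rfl
  have hSbdd : BddBelow S := by
    rw [hS]; exact bdd_of_cone hP hf (hcl 1) hw1ne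
  have hScl : IsClosed S := by
    rw [hS]
    exact isClosed_closure.preimage (continuous_const.add (continuous_id.smul continuous_const))
  have hSne : S.Nonempty := by
    have he : u - (φ u) • w 0 ∈ BI C w I01 :=
      Submodule.sub_mem _ hu (Submodule.smul_mem _ _ hw0F)
    have hφe : φ (u - (φ u) • w 0) = 0 := by
      rw [map_sub, map_smul, hφ.one, smul_eq_mul, mul_one, sub_self]
    obtain ⟨κ, hκ, -, h2⟩ := hlfs n C Γ d h w hW φ hφ _ he hφe _ hf (φ u / 2) (by positivity)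
    obtain ⟨-, -, h3, -⟩ := (Pool.Agent.NBT.H13.ibf n C hP 3 w hpes).1 I01 _ hW.box
    have h4 : κ • w 1 + (φ u / 2) • (w 0 + w 1) + (u - (φ u) • w 0) ∈ closure C := by
      refine (h3 _ ?_ (fun _ => φ u / 2) ?_).1
      · exact Submodule.add_mem _ (Submodule.add_mem _ (Submodule.smul_mem _ _ hw1F)
          (Submodule.smul_mem _ _ (Submodule.add_mem _ hw0F hw1F))) he
      · have e1 : ∑ m ∈ I01ᶜ, (φ u / 2) • w m = (φ u / 2) • fS w I01ᶜ := by
          unfold fS
          rw [Finset.smul_sum]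
        have e2 : ∑ i, w i = (w 0 + w 1) + fS w I01ᶜ := by
          rw [← fS_add_compl w I01, fS_pair w (by decide)]
        have e3 : κ • w 1 + (φ u / 2) • (w 0 + w 1) + (u - (φ u) • w 0) +
            ∑ m ∈ I01ᶜ, (φ u / 2) • w m = κ • w 1 + (φ u / 2) • ∑ i, w i + (u - (φ u) • w 0) := by
          rw [e1, e2, smul_add (φ u / 2) (w 0 + w 1)]
          abel
        rw [e3]; exact h2
    have h5 := hP.cl_add h4 (hP.cl_smul (hcl 0) (half_pos hφu).le)
    refine ⟨κ + φ u / 2, (hmemS _).2 ?_⟩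
    have e4 : u + (κ + φ u / 2) • w 1 =
        κ • w 1 + (φ u / 2) • (w 0 + w 1) + (u - (φ u) • w 0) + (φ u / 2) • w 0 := by
      have e5 : (φ u) • w 0 = (φ u / 2) • w 0 + (φ u / 2) • w 0 := by
        rw [← add_smul]; congr 1; ring
      rw [e5, add_smul, smul_add]
      abel
    rw [e4]; exact h5
  obtain ⟨t, ht⟩ : ∃ t : ℝ, t = sInf S := ⟨_, rfl⟩
  have htS : t ∈ S := by
    rw [ht]; exact hScl.csInf_mem hSne hSbdd
  have htmin : ∀ s ∈ S, t ≤ s := fun s hs => by
    rw [ht]; exact csInf_le hSbdd hs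
  have hxcl : u + t • w 1 ∈ closure C := (hmemS t).1 htS
  have hxF : u + t • w 1 ∈ BI C w I01 := Submodule.add_mem _ hu (Submodule.smul_mem _ _ hw1F)
  have hφx : ∀ s : ℝ, φ (u + s • w 1) = φ u := by
    intro s
    rw [map_add, map_smul, hφ1, smul_zero, add_zero]
  have hxne : ∀ c : ℝ, u + t • w 1 ≠ c • w 1 := by
    intro c hc
    have h1 := congrArg φ hc
    rw [hφx, map_smul, hφ1, smul_zero] at h1
    linarith
  have hxnon : ¬ Unt C (BI C w I01) (u + t • w 1) := by
    intro hU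
    obtain ⟨M, hM, h1⟩ := hU.2.2 (w 1) hw1F
    have h2 := hP.cl_smul h1 (inv_pos.2 hM).le
    have e : M⁻¹ • (M • (u + t • w 1) - w 1) = u + (t - M⁻¹) • w 1 := by
      rw [smul_sub, smul_smul, inv_mul_cancel₀ hM.ne', one_smul, sub_smul]
      abel
    rw [e] at h2
    have h3 := htmin _ ((hmemS _).2 h2)
    have h4 : 0 < M⁻¹ := inv_pos.2 hM
    linarith
  refine ⟨t, ⟨hxF, hxcl, hxnon, hxne⟩, ?_, ?_⟩
  · intro hucl
    refine htmin 0 ((hmemS 0).2 ?_)
    rw [zero_smul, add_zero]; exact hucl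
  · intro t' ht'
    have h1 : t ≤ t' := htmin _ ((hmemS _).2 ht'.cl)
    by_contra hne
    have hlt : 0 < t' - t := by
      rcases lt_or_eq_of_le h1 with h2 | h2
      · linarith
      · exact absurd h2.symm hne
    have hyF : (t' - t) • w 1 ∈ BI C w I01 := Submodule.smul_mem _ _ hw1F
    have hycl : (t' - t) • w 1 ∈ closure C := hP.cl_smul (hcl 1) hlt.le
    have hynu : ¬ Unt C (BI C w I01) ((t' - t) • w 1) := fun hU => hnu1 (unt_of_smul hP hlt hU)
    have hyne : (t' - t) • w 1 ≠ 0 := smul_ne_zero hlt.ne' hw1ne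
    have hind : Ind2 (u + t • w 1) ((t' - t) • w 1) := by
      refine ind2_of_ne hyne fun a => ?_
      rw [smul_smul]
      exact hxne _
    have h2 := (hst1 _ hxF _ hyF hxcl hycl hind hxnon hynu).1
    have e : u + t • w 1 + (t' - t) • w 1 = u + t' • w 1 := by
      rw [sub_smul]
      abel
    rw [e] at h2
    exact ht'.non h2

end Pool.Agent.KT3.H76
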