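import Pool.Agent.KT3.StmtsD

/-!
# KT3 squad (MP_e54c4c_gt): common lemmas for the rows SAT and TRA
-/

set_option autoImplicit false

open Matrix Filter Topology

namespace Pool.Agent.KT3.H76

open Pool.Agent.PFS Pool.Agent.PFJ Pool.Agent.NBT Pool.Agent.KT3
open Pool.Agent.PFS.CC (act_smul act_mul act_one act_inv_act act_act_inv act_continuous act_sum)

variable {n : ℕ}

/-! ### the operations on triangles -/

/-- the scaled group action on triangles -/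
noncomputable def gt (s : ℝ) (g : GL (Fin n) ℝ) (v : Fin 3 → V n) : Fin 3 → V n :=
  fun i => s • act g (v i)

theorem gt_app (s : ℝ) (g : GL (Fin n) ℝ) (v : Fin 3 → V n) (i : Fin 3) :
    gt s g v i = s • act g (v i) := rfl

theorem at1_zero (v : Fin 3 → V n) (t : ℝ) : at1 v t 0 = v 0 := by
  unfold at1
  rw [Function.update_of_ne (by decide)]

theorem at1_one (v : Fin 3 → V n) (t : ℝ) : at1 v t 1 = Real.exp t • v 1 := by
  unfold at1
  rw [Function.update_self]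

theorem at1_two (v : Fin 3 → V n) (t : ℝ) : at1 v t 2 = v 2 := by
  unfold at1
  rw [Function.update_of_ne (by decide)]

theorem up_zero (v : Fin 3 → V n) (x : V n) : up v x 0 = x := Function.update_self _ _ _

theorem up_one (v : Fin 3 → V n) (x : V n) : up v x 1 = v 1 :=
  Function.update_of_ne (by decide) _ _

theorem up_two (v : Fin 3 → V n) (x : V n) : up v x 2 = v 2 :=
  Function.update_of_ne (by decide) _ _

theorem tri_ext {v w : Fin 3 → V n} (h0 : v 0 = w 0) (h1 : v 1 = w 1) (h2 : v 2 = w 2) :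
    v = w := by
  funext i
  fin_cases i
  · exact h0
  · exact h1
  · exact h2

theorem up_self (v : Fin 3 → V n) : up v (v 0) = v := Function.update_eq_self _ _

theorem up_up (v : Fin 3 → V n) (x y : V n) : up (up v x) y = up v y := by
  refine tri_ext ?_ ?_ ?_
  · rw [up_zero, up_zero]
  · rw [up_one, up_one, up_one]
  · rw [up_two, up_two, up_two]

theorem at1_at1 (v : Fin 3 → V n) (t t' : ℝ) : at1 (at1 v t) t' = at1 v (t + t') := by
  refine tri_ext ?_ ?_ ?_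
  · rw [at1_zero, at1_zero, at1_zero]
  · rw [at1_one, at1_one, at1_one, smul_smul, ← Real.exp_add, add_comm]
  · rw [at1_two, at1_two, at1_two]

theorem at1_nil (v : Fin 3 → V n) : at1 v 0 = v := by
  refine tri_ext ?_ ?_ ?_
  · rw [at1_zero]
  · rw [at1_one, Real.exp_zero, one_smul]
  · rw [at1_two]

theorem at1_up (v : Fin 3 → V n) (x : V n) (t : ℝ) : at1 (up v x) t = up (at1 v t) x := by
  refine tri_ext ?_ ?_ ?_
  · rw [at1_zero, up_zero, up_zero]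
  · rw [at1_one, up_one, up_one, at1_one]
  · rw [at1_two, up_two, up_two, at1_two]

theorem at1_gt (s : ℝ) (g : GL (Fin n) ℝ) (v : Fin 3 → V n) (t : ℝ) :
    at1 (gt s g v) t = gt s g (at1 v t) := by
  refine tri_ext ?_ ?_ ?_
  · rw [at1_zero, gt_app, gt_app, at1_zero]
  · rw [at1_one, gt_app, gt_app, at1_one, act_smul, smul_comm]
  · rw [at1_two, gt_app, gt_app, at1_two]

theorem up_gt (s : ℝ) (g : GL (Fin n) ℝ) (v : Fin 3 → V n) (x : V n) :
    up (gt s g v) (s • act g x) = gt s g (up v x) := by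
  refine tri_ext ?_ ?_ ?_
  · rw [up_zero, gt_app, up_zero]
  · rw [up_one, gt_app, gt_app, up_one]
  · rw [up_two, gt_app, gt_app, up_two]

theorem gt_gt (s s' : ℝ) (g g' : GL (Fin n) ℝ) (v : Fin 3 → V n) :
    gt s' g' (gt s g v) = gt (s' * s) (g' * g) v := by
  funext i
  rw [gt_app, gt_app, gt_app, act_smul, smul_smul, act_mul]

theorem gt_inv (s : ℝ) (hs : 0 < s) (g : GL (Fin n) ℝ) (v : Fin 3 → V n) :
    gt s⁻¹ g⁻¹ (gt s g v) = v := by
  funext i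
  rw [gt_app, gt_app, act_smul, smul_smul, inv_mul_cancel₀ hs.ne', one_smul, act_inv_act]

theorem at1_eq (v : Fin 3 → V n) (t : ℝ) :
    at1 v t = fun i => (Function.update (fun _ => (1 : ℝ)) (1 : Fin 3) (Real.exp t)) i • v i := by
  refine tri_ext ?_ ?_ ?_
  · rw [at1_zero, Function.update_of_ne (by decide), one_smul]
  · rw [at1_one, Function.update_self]
  · rw [at1_two, Function.update_of_ne (by decide), one_smul]

theorem rpos (t : ℝ) : ∀ i : Fin 3,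
    0 < (Function.update (fun _ => (1 : ℝ)) (1 : Fin 3) (Real.exp t)) i := by
  intro i
  by_cases h : i = 1
  · rw [h, Function.update_self]; exact Real.exp_pos _
  · rw [Function.update_of_ne h]; exact one_pos

theorem sum_three (v : Fin 3 → V n) : ∑ i, v i = v 0 + v 1 + v 2 := Fin.sum_univ_three v

/-! ### limits -/

theorem tend_at1 {x : ℕ → Fin 3 → V n} {w : Fin 3 → V n}
    (h : ∀ i, Tendsto (fun m => x m i) atTop (𝓝 (w i))) (t : ℝ) :
    ∀ i, Tendsto (fun m => at1 (x m) t i) atTop (𝓝 (at1 w t i)) := by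
  intro i
  fin_cases i
  · simp only [Fin.zero_eta, at1_zero]; exact h 0
  · simp only [Fin.mk_one, at1_one]; exact (h 1).const_smul _
  · simp only [Fin.reduceFinMk, at1_two]; exact h 2

theorem tend_gt {x : ℕ → Fin 3 → V n} {w : Fin 3 → V n}
    (h : ∀ i, Tendsto (fun m => x m i) atTop (𝓝 (w i))) (s : ℝ) (g : GL (Fin n) ℝ) :
    ∀ i, Tendsto (fun m => gt s g (x m) i) atTop (𝓝 (gt s g w i)) := by
  intro i
  have h1 : Tendsto (fun m => act g (x m i)) atTop (𝓝 (act g (w i))) :=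
    ((act_continuous g).tendsto _).comp (h i)
  exact h1.const_smul s

theorem tend_up {x : ℕ → Fin 3 → V n} {w : Fin 3 → V n}
    (h : ∀ i, Tendsto (fun m => x m i) atTop (𝓝 (w i))) {z : ℕ → V n} {y : V n}
    (hz : Tendsto z atTop (𝓝 y)) :
    ∀ i, Tendsto (fun m => up (x m) (z m) i) atTop (𝓝 (up w y i)) := by
  intro i
  fin_cases i
  · simp only [Fin.zero_eta, up_zero]; exact hz
  · simp only [Fin.mk_one, up_one]; exact h 1
  · simp only [Fin.reduceFinMk, up_two]; exact h 2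

/-- all components are eventually close -/
theorem ev_close {x : ℕ → Fin 3 → V n} {w : Fin 3 → V n}
    (h : ∀ i, Tendsto (fun m => x m i) atTop (𝓝 (w i))) {ε : ℝ} (hε : 0 < ε) :
    ∀ᶠ m in atTop, ∀ i, ‖x m i - w i‖ < ε := by
  rw [Filter.eventually_all]
  intro i
  have h1 := (Metric.tendsto_nhds.1 (h i)) ε hε
  filter_upwards [h1] with m hm
  rwa [dist_eq_norm] at hm

theorem tend_of_close {x : ℕ → Fin 3 → V n} {w : Fin 3 → V n}
    (h : ∀ m : ℕ, ∀ i, ‖x m i - w i‖ < 1 / ((m : ℝ) + 1)) :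
    ∀ i, Tendsto (fun m => x m i) atTop (𝓝 (w i)) := by
  intro i
  rw [tendsto_iff_norm_sub_tendsto_zero]
  refine squeeze_zero (fun m => norm_nonneg _) (fun m => (h m i).le) ?_
  exact tendsto_one_div_add_atTop_nhds_zero_nat

/-- a bound for the scaled action -/
theorem act_bound (s : ℝ) (g : GL (Fin n) ℝ) :
    ∃ B : ℝ, 0 < B ∧ ∀ u v : V n, ‖s • act g u - s • act g v‖ ≤ B * ‖u - v‖ := by
  obtain ⟨L, hL⟩ : ∃ L : V n →L[ℝ] V n, ∀ u, L u = s • act g u :=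
    ⟨LinearMap.toContinuousLinearMap (s • Matrix.mulVecLin (g : Matrix (Fin n) (Fin n) ℝ)),
      fun u => rfl⟩
  refine ⟨‖L‖ + 1, by positivity, fun u v => ?_⟩
  have h1 : s • act g u - s • act g v = L (u - v) := by
    rw [map_sub, hL, hL]
  rw [h1]
  refine (L.le_opNorm _).trans ?_
  exact mul_le_mul_of_nonneg_right (by linarith) (norm_nonneg _)

/-! ### the transport of leaves -/

/-- the class of one transported triangle -/
theorem tr {C : Set (V n)} {Γ : Subgroup (GL (Fin n) ℝ)} {d : ℕ} (hLFI : LfiStmt)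
    (hLFM : LfmStmt) (hPHU : PhuStmt) (h3 : H3 C Γ d) {X : (Fin 3 → V n) → Prop}
    (hX : LS C Γ d X) {w : Fin 3 → V n} (hw : X w) {φ : V n →ₗ[ℝ] ℝ} (hφ : Ph C w 0 φ) {x : V n}
    (hx : Lf C w x) (hφx : φ x = 1) {g : GL (Fin n) ℝ} (hg : g ∈ Γ) {s : ℝ} (hs : 0 < s) (t : ℝ) :
    X (gt s g (at1 (up w x) t)) ∧
    (∀ z, Lf C (gt s g (at1 (up w x) t)) (s • act g z) ↔ Lf C w z) ∧
    ∀ Ψ : V n →ₗ[ℝ] ℝ, Ph C (gt s g (at1 (up w x) t)) 0 Ψ → ∀ u, Ψ (s • act g u) = φ u := by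
  have hHK : HK C Γ 3 := h3.toHI.toHK
  have hX1 : X (up w x) := hX.lf w hw φ hφ x hx hφx
  have hX2 : X (at1 (up w x) t) := hX.scl _ hX1 t
  have hX3 : X (gt s g (at1 (up w x) t)) := hX.inv _ hX2 g hg s hs
  obtain ⟨-, hm⟩ := hLFM n C Γ d h3 w (hX.wl w hw)
  obtain ⟨-, -, hm1, -, -, -, hm2⟩ := hm x hx
  have hp1 : Ph C (up w x) 0 φ := by
    have h1 := (hm2 φ hφ).2
    rwa [hφx, inv_one, one_smul] at h1
  have hp2 : Ph C (at1 (up w x) t) 0 φ := by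
    have h1 := (hPHU n C Γ 3 hHK (up w x) (hX.wl _ hX1).pes 0 φ hp1).2.2.1 _ (rpos t)
    rw [← at1_eq, Function.update_of_ne (by decide), inv_one, one_smul] at h1
    exact h1
  refine ⟨hX3, ?_, ?_⟩
  · intro z
    have h1 := (hLFI n C Γ d h3 (at1 (up w x) t) (hX.wl _ hX2) z).2.1 g hg s hs
    have h2 := (hLFI n C Γ d h3 (up w x) (hX.wl _ hX1) z).1 _ (rpos t)
    rw [← at1_eq] at h2
    exact h1.trans (h2.trans (hm1 z))
  · intro Ψ hΨ u
    exact (hPHU n C Γ 3 hHK (at1 (up w x) t) (hX.wl _ hX2).pes 0 φ hp2).2.2.2.1 g hg s hs Ψ hΨ u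

/-- pull back of a leaf point of the limit -/
theorem pull {C : Set (V n)} {Γ : Subgroup (GL (Fin n) ℝ)} {d : ℕ} (hLFI : LfiStmt)
    (hLFM : LfmStmt) (hLFC : LfcStmt) (hPHE : PheStmt) (hPHU : PhuStmt) (hPHC : PhcStmt)
    (h3 : H3 C Γ d) {X : (Fin 3 → V n) → Prop} (hX : LS C Γ d X) {w : Fin 3 → V n} (hw : X w)
    {φ : V n →ₗ[ℝ] ℝ} (hφ : Ph C w 0 φ) (x : ℕ → V n) (hx : ∀ m, Lf C w (x m))
    (hφx : ∀ m, φ (x m) = 1) (g : ℕ → GL (Fin n) ℝ) (hg : ∀ m, g m ∈ Γ) (s : ℕ → ℝ)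
    (hs : ∀ m, 0 < s m) (t : ℕ → ℝ) {W : Fin 3 → V n} (hW : X W)
    (hlim : ∀ i, Tendsto (fun m => gt (s m) (g m) (at1 (up w (x m)) (t m)) i) atTop (𝓝 (W i)))
    {y : V n} (hy : Lf C W y) {Ψ : V n →ₗ[ℝ] ℝ} (hΨ : Ph C W 0 Ψ) (hΨy : Ψ y = 1) :
    ∃ z : ℕ → V n, (∀ᶠ m in atTop, Lf C w (z m) ∧ φ (z m) = 1) ∧
      Tendsto (fun m => s m • act (g m) (z m)) atTop (𝓝 y) := by
  have hHK : HK C Γ 3 := h3.toHI.toHK
  have htr := fun m => tr hLFI hLFM hPHU h3 hX hw hφ (hx m) (hφx m) (hg m) (hs m) (t m)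
  obtain ⟨z0, hz0, hz0l⟩ := hLFC n C Γ d h3 (fun m => gt (s m) (g m) (at1 (up w (x m)) (t m))) W
    (fun m => hX.wl _ (htr m).1) (hX.wl _ hW) hlim y hy
  choose Ψm hΨm using fun m => hPHE n C Γ 3 hHK (gt (s m) (g m) (at1 (up w (x m)) (t m)))
    (hX.wl _ (htr m).1).pes 0
  have hlimΨ := hPHC n C Γ 3 hHK (fun m => gt (s m) (g m) (at1 (up w (x m)) (t m))) W
    (fun m => (hX.wl _ (htr m).1).pes) (hX.wl _ hW).pes hlim 0 Ψm Ψ z0 y hΨm hΨ hz0
  rw [hΨy] at hlimΨ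
  obtain ⟨z1, hz1⟩ : ∃ z1 : ℕ → V n, ∀ m, s m • act (g m) (z1 m) = z0 m := by
    refine ⟨fun m => (s m)⁻¹ • act (g m)⁻¹ (z0 m), fun m => ?_⟩
    rw [act_smul, smul_smul, mul_inv_cancel₀ (hs m).ne', one_smul, act_act_inv]
  have hφz : ∀ m, Ψm m (z0 m) = φ (z1 m) := by
    intro m
    rw [← hz1 m]
    exact (htr m).2.2 (Ψm m) (hΨm m) (z1 m)
  have hlimφ : Tendsto (fun m => φ (z1 m)) atTop (𝓝 1) := by
    refine hlimΨ.congr fun m => ?_
    exact hφz m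
  have hpos : ∀ᶠ m in atTop, 0 < φ (z1 m) :=
    hlimφ.eventually (lt_mem_nhds one_pos)
  refine ⟨fun m => (φ (z1 m))⁻¹ • z1 m, ?_, ?_⟩
  · filter_upwards [hpos, hz0l] with m hm1 hm2
    refine ⟨?_, ?_⟩
    · rw [(hLFI n C Γ d h3 w (hX.wl w hw) (z1 m)).2.2 _ (inv_pos.2 hm1)]
      rw [← (htr m).2.1, hz1 m]
      exact hm2
    · rw [map_smul, smul_eq_mul, inv_mul_cancel₀ hm1.ne']
  · have h1 : Tendsto (fun m => (φ (z1 m))⁻¹ • z0 m) atTop (𝓝 ((1 : ℝ)⁻¹ • y)) :=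
      (hlimφ.inv₀ one_ne_zero).smul hz0
    rw [inv_one, one_smul] at h1
    refine h1.congr fun m => ?_
    rw [act_smul, smul_comm, hz1 m]

/-- the limit of the lowering orbit -/
theorem low_lim {C : Set (V n)} {Γ : Subgroup (GL (Fin n) ℝ)} {d : ℕ} (hFAY : FayStmt)
    (h3 : H3 C Γ d) {X : (Fin 3 → V n) → Prop}
    (hX : LS C Γ d X) {w : Fin 3 → V n} (hw : X w) :
    ∃ (θ : ℕ → ℕ) (g : ℕ → GL (Fin n) ℝ) (s : ℕ → ℝ) (W : Fin 3 → V n), StrictMono θ ∧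
      (∀ m, g m ∈ Γ) ∧ (∀ m, 0 < s m) ∧ X W ∧
      ∀ i, Tendsto (fun m => gt (s m) (g m) (at1 w (-(θ m : ℝ))) i) atTop (𝓝 (W i)) := by
  have hHK : HK C Γ 3 := h3.toHI.toHK
  have hfam := hFAY n C Γ 3 hHK.toCC (by norm_num)
  have hXm : ∀ m : ℕ, X (at1 w (-(m : ℝ))) := fun m => hX.scl w hw _
  obtain ⟨φ, g, s, p, hφ, hg, hs, hp, hlim⟩ := hfam.cpt (fun m : ℕ => at1 w (-(m : ℝ)))
    (fun m => (hX.wl _ (hXm m)).pes)
  have hXV : ∀ m : ℕ, X (gt (s m) (g m) (at1 w (-(φ m : ℝ)))) := fun m =>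
    hX.inv _ (hXm (φ m)) (g m) (hg m) (s m) (hs m)
  have hsum : Tendsto (fun m => ∑ i, gt (s m) (g m) (at1 w (-(φ m : ℝ))) i) atTop (𝓝 p) := by
    refine hlim.congr fun m => ?_
    rw [act_sum, Finset.smul_sum]
    rfl
  obtain ⟨ψ, W, hψ, hW, hWs, hWp⟩ := Pool.Agent.PFS.H37.lpsF n C Γ hHK.toCC (Fin 3)
    (by simp) (fun m => gt (s m) (g m) (at1 w (-(φ m : ℝ)))) p
    (fun m => (hX.wl _ (hXV m)).pes) hp hsum
  refine ⟨fun m => φ (ψ m), fun m => g (ψ m), fun m => s (ψ m), W, hφ.comp hψ,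
    fun m => hg _, fun m => hs _, ?_, hW⟩
  refine hX.cld (fun m => gt (s (ψ m)) (g (ψ m)) (at1 w (-(φ (ψ m) : ℝ)))) W
    (fun m => hXV (ψ m)) hW ?_
  rw [hWs]; exact hp

end Pool.Agent.KT3.H76
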