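import Pool.Agent.Helper76_KT3.LIB

/-!
# KT3 squad (MP_e54c4c_gt), row SAT: in a minimal family the lowered leaf of every member is dense
-/

set_option autoImplicit false

open Matrix Filter Topology

namespace Pool.Agent.KT3.H76

open Pool.Agent.PFS Pool.Agent.PFJ Pool.Agent.NBT Pool.Agent.KT3
open Pool.Agent.PFS.CC (act_smul act_mul act_one act_inv_act act_act_inv act_continuous act_sum)

variable {n : ℕ}

/-- the approximation property of `SAT` -/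
def Apx (C : Set (V n)) (Γ : Subgroup (GL (Fin n) ℝ)) (w : Fin 3 → V n) (φ : V n →ₗ[ℝ] ℝ)
    (W : Fin 3 → V n) : Prop :=
  ∀ ε T : ℝ, 0 < ε → ∃ t : ℝ, T ≤ t ∧ ∃ x : V n, Lf C w x ∧ φ x = 1 ∧ ∃ g ∈ Γ, ∃ s : ℝ, 0 < s ∧
    ∀ i, ‖gt s g (at1 (up w x) (-t)) i - W i‖ < ε

theorem apx_inv {C : Set (V n)} {Γ : Subgroup (GL (Fin n) ℝ)} {w : Fin 3 → V n}
    {φ : V n →ₗ[ℝ] ℝ} {W : Fin 3 → V n} (h : Apx C Γ w φ W) {g' : GL (Fin n) ℝ} (hg' : g' ∈ Γ)
    {s' : ℝ} (hs' : 0 < s') : Apx C Γ w φ (gt s' g' W) := by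
  intro ε T hε
  obtain ⟨B, hB, hb⟩ := act_bound s' g'
  obtain ⟨t, ht, x, hx, hφx, g, hg, s, hs, hi⟩ := h (ε / B) T (by positivity)
  refine ⟨t, ht, x, hx, hφx, g' * g, Γ.mul_mem hg' hg, s' * s, by positivity, fun i => ?_⟩
  rw [← gt_gt, gt_app s' g', gt_app s' g' W]
  refine (hb _ _).trans_lt ?_
  have h1 := hi i
  rw [lt_div_iff₀ hB] at h1
  linarith

theorem apx_scl {C : Set (V n)} {Γ : Subgroup (GL (Fin n) ℝ)} {w : Fin 3 → V n}
    {φ : V n →ₗ[ℝ] ℝ} {W : Fin 3 → V n} (h : Apx C Γ w φ W) (t' : ℝ) :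
    Apx C Γ w φ (at1 W t') := by
  intro ε T hε
  have hE : 0 < 1 + Real.exp t' := by have := Real.exp_pos t'; linarith
  obtain ⟨t, ht, x, hx, hφx, g, hg, s, hs, hi⟩ := h (ε / (1 + Real.exp t')) (T + t')
    (by positivity)
  have hle : ε / (1 + Real.exp t') ≤ ε := by
    rw [div_le_iff₀ hE]
    have := Real.exp_pos t'
    nlinarith
  refine ⟨t - t', by linarith, x, hx, hφx, g, hg, s, hs, ?_⟩
  have e : at1 (up w x) (-(t - t')) = at1 (at1 (up w x) (-t)) t' := by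
    rw [at1_at1]
    congr 1
    ring
  rw [e, ← at1_gt]
  have h0 := hi 0
  have h1 := hi 1
  have h2 := hi 2
  have H : ∀ v : Fin 3 → V n, (∀ i, ‖v i - W i‖ < ε / (1 + Real.exp t')) →
      ∀ i, ‖at1 v t' i - at1 W t' i‖ < ε := by
    intro v hv i
    fin_cases i
    · simp only [Fin.zero_eta, at1_zero]
      exact (hv 0).trans_le hle
    · simp only [Fin.mk_one, at1_one]
      rw [← smul_sub, norm_smul, Real.norm_eq_abs, abs_of_pos (Real.exp_pos t')]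
      have h3 := hv 1
      rw [lt_div_iff₀ hE] at h3
      have h4 : 0 ≤ ‖v 1 - W 1‖ := norm_nonneg _
      nlinarith
    · simp only [Fin.reduceFinMk, at1_two]
      exact (hv 2).trans_le hle
  exact H _ hi

theorem apx_cld {C : Set (V n)} {Γ : Subgroup (GL (Fin n) ℝ)} {w : Fin 3 → V n}
    {φ : V n →ₗ[ℝ] ℝ} {x : ℕ → Fin 3 → V n} {W : Fin 3 → V n} (h : ∀ m, Apx C Γ w φ (x m))
    (hl : ∀ i, Tendsto (fun m => x m i) atTop (𝓝 (W i))) : Apx C Γ w φ W := by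
  intro ε T hε
  obtain ⟨m, hm⟩ := (ev_close hl (half_pos hε)).exists
  obtain ⟨t, ht, x', hx, hφx, g, hg, s, hs, hi⟩ := h m (ε / 2) T (half_pos hε)
  refine ⟨t, ht, x', hx, hφx, g, hg, s, hs, fun i => ?_⟩
  have h1 := norm_add_le (gt s g (at1 (up w x') (-t)) i - x m i) (x m i - W i)
  have h2 : gt s g (at1 (up w x') (-t)) i - x m i + (x m i - W i) =
      gt s g (at1 (up w x') (-t)) i - W i := by abel
  rw [h2] at h1
  have h3 := hi i
  have h4 := hm i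
  linarith

/-- **SAT** -/
theorem sat (hFAY : FayStmt) (_hWII : WiiStmt) (hLFI : LfiStmt) (hLFM : LfmStmt)
    (hLFC : LfcStmt) (hPHE : PheStmt) (hPHU : PhuStmt) (hPHC : PhcStmt) : SatStmt := by
  intro n C Γ d h3 X hM w' w'' hw' hw'' φ hφ
  have hHK : HK C Γ 3 := h3.toHI.toHK
  have hX : LS C Γ d X := hM.toLS
  have hLf0 : Lf C w' (w' 0) := (hLFM n C Γ d h3 w' (hX.wl w' hw')).1
  have key : ∀ W, X W → X W ∧ Apx C Γ w' φ W := by
    refine hM.min (fun W => X W ∧ Apx C Γ w' φ W) ?_ (fun W h => h.1) ?_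
    · refine ⟨fun W h => hX.wl W h.1, ?_, ?_, ?_, ?_⟩
      · intro W h g hg s hs
        exact ⟨hX.inv W h.1 g hg s hs, apx_inv h.2 hg hs⟩
      · intro W h t
        exact ⟨hX.scl W h.1 t, apx_scl h.2 t⟩
      · intro W h Ψ hΨ y hy hΨy
        refine ⟨hX.lf W h.1 Ψ hΨ y hy hΨy, ?_⟩
        have h5 : ∀ m : ℕ, ∃ t : ℝ, (m : ℝ) ≤ t ∧ ∃ x : V n, Lf C w' x ∧ φ x = 1 ∧ ∃ g ∈ Γ,
            ∃ s : ℝ, 0 < s ∧ ∀ i, ‖gt s g (at1 (up w' x) (-t)) i - W i‖ < 1 / ((m : ℝ) + 1) :=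
          fun m => h.2 _ _ (by positivity)
        choose t ht x hx hφx g hg s hs hi using h5
        have hlim := tend_of_close hi
        obtain ⟨z, hz, hzl⟩ := pull hLFI hLFM hLFC hPHE hPHU hPHC h3 hX hw' hφ x hx hφx g hg s hs
          (fun m => -(t m)) h.1 hlim hy hΨ hΨy
        have hlim2 : ∀ i, Tendsto (fun m => gt (s m) (g m) (at1 (up w' (z m)) (-(t m))) i) atTop
            (𝓝 (up W y i)) := by
          have h6 := tend_up hlim hzl
          intro i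
          refine (h6 i).congr fun m => ?_
          rw [up_gt, at1_up, at1_up, up_up]
        intro ε T hε
        obtain ⟨m, ⟨hm1, hm2⟩, hm3, hm4⟩ := (hz.and ((ev_close hlim2 hε).and
          (eventually_ge_atTop (Nat.ceil T)))).exists
        refine ⟨t m, ?_, z m, hm1, hm2, g m, hg m, s m, hs m, hm3⟩
        have h7 : T ≤ (m : ℝ) := (Nat.le_ceil T).trans (by exact_mod_cast hm4)
        exact h7.trans (ht m)
      · intro x W hx hl hs
        exact ⟨hX.cld x W (fun m => (hx m).1) hl hs, apx_cld (fun m => (hx m).2) hl⟩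
    · obtain ⟨θ, g, s, W, hθ, hg, hs, hW, hl⟩ := low_lim hFAY h3 hX hw'
      refine ⟨W, hW, ?_⟩
      intro ε T hε
      obtain ⟨m, hm3, hm4⟩ := ((ev_close hl hε).and (eventually_ge_atTop (Nat.ceil T))).exists
      refine ⟨(θ m : ℝ), ?_, w' 0, hLf0, hφ.one, g m, hg m, s m, hs m, ?_⟩
      · have h7 : T ≤ (m : ℝ) := (Nat.le_ceil T).trans (by exact_mod_cast hm4)
        have h8 : (m : ℝ) ≤ (θ m : ℝ) := by exact_mod_cast hθ.id_le m
        exact h7.trans h8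
      · rw [up_self]
        exact hm3
  intro ε T hε
  exact (key w'' hw'').2 ε T hε

end Pool.Agent.KT3.H76
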