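import Pool.Agent.Helper76_KT3.LIB

/-!
# KT3 squad (MP_e54c4c_gt), row TRA: transitivity of the raising flow
-/

set_option autoImplicit false

open Matrix Filter Topology

namespace Pool.Agent.KT3.H76

open Pool.Agent.PFS Pool.Agent.PFJ Pool.Agent.NBT Pool.Agent.KT3
open Pool.Agent.PFS.CC (act_smul act_mul act_one act_inv_act act_act_inv act_continuous act_sum)

variable {n : ℕ}

/-- **TRA** -/
theorem tra (hFAY : FayStmt) (_hWII : WiiStmt) (hLFI : LfiStmt) (hLFM : LfmStmt)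
    (hLFC : LfcStmt) (hPHE : PheStmt) (hPHU : PhuStmt) (hPHC : PhcStmt) (hLPT : LptStmt)
    (hSAT : SatStmt) : TraStmt := by
  intro n C Γ d h3 X hM w w'' hw hw'' ε ε' T hε hε'
  have hHK : HK C Γ 3 := h3.toHI.toHK
  have hP : PCone C := hHK.toCC.toPCone
  have hX : LS C Γ d X := hM.toLS
  have hLf0 : Lf C w (w 0) := (hLFM n C Γ d h3 w (hX.wl w hw)).1
  obtain ⟨φ, hφ⟩ := hPHE n C Γ 3 hHK w (hX.wl w hw).pes 0
  obtain ⟨θ, gm, sm, w1, hθ, hgm, hsm, hw1, hl⟩ := low_lim hFAY h3 hX hw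
  obtain ⟨φ1, hφ1⟩ := hPHE n C Γ 3 hHK w1 (hX.wl w1 hw1).pes 0
  obtain ⟨t', ht', y, hy, hφy, g, hg, s, hs, hclose⟩ :=
    hSAT n C Γ d h3 X hM w1 w'' hw1 hw'' φ1 hφ1 (ε' / 2) 0 (half_pos hε')
  have hclose' : ∀ i, ‖gt s g (at1 (up w1 y) (-t')) i - w'' i‖ < ε' / 2 := hclose
  have hl' : ∀ i, Tendsto (fun m => gt (sm m) (gm m) (at1 (up w (w 0)) (-(θ m : ℝ))) i) atTop
      (𝓝 (w1 i)) := by
    rw [up_self]; exact hl
  obtain ⟨z, hz, hzl⟩ := pull hLFI hLFM hLFC hPHE hPHU hPHC h3 hX hw hφ (fun _ => w 0)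
    (fun _ => hLf0) (fun _ => hφ.one) gm hgm sm hsm (fun m => -(θ m : ℝ)) hw1 hl' hy hφ1 hφy
  -- the leaf points are bounded at the right scale
  have hw1s : ∑ i, w1 i ∈ C := (hX.wl w1 hw1).pes.1.sum_mem
  obtain ⟨M', hM', hM'y⟩ := hP.absorb hw1s y
  have hbd : ∀ᶠ m in atTop, M' • (w 0 + Real.exp (-(θ m : ℝ)) • w 1 + w 2) - z m ∈ closure C := by
    have h1 : Tendsto (fun m => M' • (∑ i, gt (sm m) (gm m) (at1 w (-(θ m : ℝ))) i) -
        sm m • act (gm m) (z m)) atTop (𝓝 (M' • (∑ i, w1 i) - y)) :=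
      ((tendsto_finsetSum _ fun i _ => hl i).const_smul M').sub hzl
    filter_upwards [h1.eventually (hP.isOpen.mem_nhds hM'y)] with m hm
    rw [← hHK.toCC.sact_cl_iff (hgm m) (hsm m)]
    have e : M' • (∑ i, gt (sm m) (gm m) (at1 w (-(θ m : ℝ))) i) - sm m • act (gm m) (z m) =
        sm m • act (gm m) (M' • (w 0 + Real.exp (-(θ m : ℝ)) • w 1 + w 2) - z m) := by
      rw [sum_three, gt_app, gt_app, gt_app, at1_zero, at1_one, at1_two, ← smul_add, ← smul_add,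
        ← Pool.Agent.PFS.CC.act_add, ← Pool.Agent.PFS.CC.act_add, Pool.Agent.PFS.CC.act_sub,
        act_smul, smul_sub, smul_comm M' (sm m)]
    rw [← e]
    exact subset_closure hm
  obtain ⟨m0, hm0⟩ := eventually_atTop.1 (hz.and hbd)
  have hlz0 : Tendsto (fun m => z (m + m0)) atTop (𝓝 (w 0)) := by
    refine hLPT n C Γ d h3 w (hX.wl w hw) φ hφ (fun m => (θ (m + m0) : ℝ)) (fun m => z (m + m0)) 1
      M' ?_ (fun m => (hm0 _ (Nat.le_add_left _ _)).1.1) ?_ rfl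
      (fun m => (hm0 _ (Nat.le_add_left _ _)).2)
    · have h1 : Tendsto (fun m => θ (m + m0)) atTop atTop :=
        hθ.tendsto_atTop.comp (tendsto_add_atTop_nat m0)
      exact tendsto_natCast_atTop_atTop.comp h1
    · have h1 : ∀ m, φ (z (m + m0)) = 1 := fun m => (hm0 _ (Nat.le_add_left _ _)).1.2
      simp only [h1]
      exact tendsto_const_nhds
  have hlz : Tendsto z atTop (𝓝 (w 0)) := (tendsto_add_atTop_iff_nat m0).1 hlz0
  -- the approximating members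
  have hlu : ∀ i, Tendsto (fun m => gt s g (at1 (gt (sm m) (gm m)
      (at1 (up w (z m)) (-(θ m : ℝ)))) (-t')) i) atTop (𝓝 (gt s g (at1 (up w1 y) (-t')) i)) := by
    have h1 : ∀ i, Tendsto (fun m => gt (sm m) (gm m) (at1 (up w (z m)) (-(θ m : ℝ))) i) atTop
        (𝓝 (up w1 y i)) := by
      have h2 := tend_up hl hzl
      intro i
      refine (h2 i).congr fun m => ?_
      rw [up_gt, at1_up]
    exact tend_gt (tend_at1 h1 (-t')) s g
  have hlw : ∀ i, Tendsto (fun m => up w (z m) i) atTop (𝓝 (w i)) := by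
    have h2 := tend_up (x := fun _ => w) (w := w) (fun i => tendsto_const_nhds) hlz
    rw [up_self] at h2
    exact h2
  obtain ⟨m, ⟨⟨hm1, hm2⟩, hm3⟩, hm4, hm5⟩ := (((hz.and (ev_close hlu (half_pos hε'))).and
    (ev_close hlw hε)).and ((eventually_ge_atTop (Nat.ceil T)).and
      (eventually_ge_atTop 0))).exists
  refine ⟨gt s g (at1 (gt (sm m) (gm m) (at1 (up w (z m)) (-(θ m : ℝ)))) (-t')), ?_, ?_,
    t' + θ m, ?_, (g * gm m)⁻¹, Γ.inv_mem (Γ.mul_mem hg (hgm m)), (s * sm m)⁻¹,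
    inv_pos.2 (mul_pos hs (hsm m)), ?_⟩
  · exact hX.inv _ (hX.scl _ (hX.inv _ (hX.scl _ (hX.lf w hw φ hφ (z m) hm1.1 hm1.2) _) _ (hgm m) _
      (hsm m)) _) g hg s hs
  · intro i
    have h1 := norm_add_le
      (gt s g (at1 (gt (sm m) (gm m) (at1 (up w (z m)) (-(θ m : ℝ)))) (-t')) i -
        gt s g (at1 (up w1 y) (-t')) i) (gt s g (at1 (up w1 y) (-t')) i - w'' i)
    rw [sub_add_sub_cancel] at h1
    have h2 := hm2 i
    have h4 := hclose' i
    linarith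
  · have h7 : T ≤ (m : ℝ) := (Nat.le_ceil T).trans (by exact_mod_cast hm4)
    have h8 : (m : ℝ) ≤ (θ m : ℝ) := by exact_mod_cast hθ.id_le m
    linarith
  · have e : gt (s * sm m)⁻¹ (g * gm m)⁻¹ (at1 (gt s g (at1 (gt (sm m) (gm m)
        (at1 (up w (z m)) (-(θ m : ℝ)))) (-t'))) (t' + θ m)) = up w (z m) := by
      rw [at1_gt, at1_at1, at1_gt, at1_at1, gt_gt (sm m) s (gm m) g,
        gt_inv _ (mul_pos hs (hsm m))]
      have e2 : -(θ m : ℝ) + (-t' + (t' + (θ m : ℝ))) = 0 := by ring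
      rw [e2, at1_nil]
    intro i
    have h9 : (s * sm m)⁻¹ • act (g * gm m)⁻¹ ((at1 (gt s g (at1 (gt (sm m) (gm m)
        (at1 (up w (z m)) (-(θ m : ℝ)))) (-t'))) (t' + θ m)) i) = up w (z m) i := by
      rw [← gt_app, e]
    rw [h9]
    exact hm3 i

end Pool.Agent.KT3.H76
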